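import Pool.Agent.Helper69.ST.Goals

/-!
# ST: packet EE (the energy)
-/

set_option autoImplicit false

open MeasureTheory Set Complex Metric Filter
open scoped ContDiff Topology ENNReal

namespace Pool.Agent.Helper37.ST.EE

open Pool.Agent.Helper45.Stek Pool.Agent.Helper69.ST

/-- the determinant of a real linear map of the plane -/
theorem detC (A : ℂ →L[ℝ] ℂ) : A.det = (A 1).re * (A I).im - (A 1).im * (A I).re := by
  show LinearMap.det (A : ℂ →ₗ[ℝ] ℂ) = _
  rw [← LinearMap.det_toMatrix Complex.basisOneI, Matrix.det_fin_two]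
  simp only [LinearMap.toMatrix_apply, Complex.coe_basisOneI, Matrix.cons_val_zero,
    Matrix.cons_val_one, Complex.coe_basisOneI_repr]
  simp
  ring

/-- a real linear function on the plane -/
theorem lin_apply (A : ℂ →L[ℝ] ℂ) (w : ℂ) : A w = w.re * A 1 + w.im * A I := by
  have h1 : w = w.re • (1 : ℂ) + w.im • I := by
    apply Complex.ext <;> simp
  conv_lhs => rw [h1]
  rw [map_add, map_smul, map_smul]
  simp

/-- the Hilbert-Schmidt norm -/
noncomputable def hs (A : ℂ →L[ℝ] ℂ) : ℝ := ‖A 1‖ ^ 2 + ‖A I‖ ^ 2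

theorem sqn (w : ℂ) : ‖w‖ ^ 2 = w.re ^ 2 + w.im ^ 2 := by
  rw [Complex.sq_norm, Complex.normSq_apply]
  ring

theorem hs_nonneg (A : ℂ →L[ℝ] ℂ) : 0 ≤ hs A := by
  unfold hs
  positivity

/-- real functionals -/
theorem fun_aux (x y : ℝ) (A : ℂ →L[ℝ] ℂ) :
    (x * (A 1).re + y * (A 1).im) ^ 2 + (x * (A I).re + y * (A I).im) ^ 2 ≤
      ‖A‖ ^ 2 * (x ^ 2 + y ^ 2) := by
  set m1 := x * (A 1).re + y * (A 1).im with hm1
  set m2 := x * (A I).re + y * (A I).im with hm2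
  set z : ℂ := ⟨m1, m2⟩ with hz
  have hAz : A z = m1 * A 1 + m2 * A I := lin_apply A z
  have h1 : x * (A z).re + y * (A z).im = m1 ^ 2 + m2 ^ 2 := by
    rw [hAz]
    simp only [Complex.add_re, Complex.add_im, Complex.re_ofReal_mul, Complex.im_ofReal_mul]
    rw [hm1, hm2]
    ring
  have h2 : ‖A z‖ ≤ ‖A‖ * ‖z‖ := A.le_opNorm z
  have h3 : ‖z‖ ^ 2 = m1 ^ 2 + m2 ^ 2 := sqn z
  have h4 : (x * (A z).re + y * (A z).im) ^ 2 ≤ (x ^ 2 + y ^ 2) * ‖A z‖ ^ 2 := by
    rw [sqn]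
    nlinarith [sq_nonneg (x * (A z).im - y * (A z).re)]
  have h5 : ‖A z‖ ^ 2 ≤ ‖A‖ ^ 2 * ‖z‖ ^ 2 := by
    rw [← mul_pow]
    exact pow_le_pow_left₀ (norm_nonneg _) h2 2
  rw [h1] at h4
  have h6 : (m1 ^ 2 + m2 ^ 2) ^ 2 ≤ (x ^ 2 + y ^ 2) * (‖A‖ ^ 2 * (m1 ^ 2 + m2 ^ 2)) := by
    rw [h3] at h5
    exact h4.trans (mul_le_mul_of_nonneg_left h5 (by positivity))
  rcases eq_or_lt_of_le (show (0 : ℝ) ≤ m1 ^ 2 + m2 ^ 2 by positivity) with h7 | h7
  · rw [← h7]
    positivity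
  · have h8 : (m1 ^ 2 + m2 ^ 2) * (m1 ^ 2 + m2 ^ 2) ≤ (‖A‖ ^ 2 * (x ^ 2 + y ^ 2)) * (m1 ^ 2 + m2 ^ 2) := by
      linarith [h6, sq (m1 ^ 2 + m2 ^ 2)]
    exact le_of_mul_le_mul_right h8 h7

theorem hs_comp (B A : ℂ →L[ℝ] ℂ) : hs (B.comp A) ≤ ‖A‖ ^ 2 * hs B := by
  have h1 := fun_aux (B 1).re (B I).re A
  have h2 := fun_aux (B 1).im (B I).im A
  unfold hs
  simp only [ContinuousLinearMap.comp_apply]
  rw [lin_apply B (A 1), lin_apply B (A I), sqn, sqn, sqn (B 1), sqn (B I)]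
  simp only [Complex.add_re, Complex.add_im, Complex.re_ofReal_mul, Complex.im_ofReal_mul]
  nlinarith [h1, h2]

/-- composition with a conformal linear map -/
theorem hs_conf (B A : ℂ →L[ℝ] ℂ) (c : ℂ) (hA : ∀ w, A w = w * c) :
    hs (B.comp A) = ‖c‖ ^ 2 * hs B := by
  unfold hs
  simp only [ContinuousLinearMap.comp_apply]
  rw [lin_apply B (A 1), lin_apply B (A I), hA, hA, sqn, sqn, sqn (B 1), sqn (B I), sqn c]
  simp only [Complex.add_re, Complex.add_im, Complex.re_ofReal_mul, Complex.im_ofReal_mul,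
    one_mul, Complex.I_mul_re, Complex.I_mul_im]
  ring

/-- a lower bound for the determinant -/
theorem det_lower (A : ℂ →L[ℝ] ℂ) (k : ℝ) (hk : 0 ≤ k) (hA : ∀ w, k * ‖w‖ ≤ ‖A w‖) :
    k ^ 2 ≤ |A.det| := by
  rcases eq_or_lt_of_le hk with h0 | h0
  · rw [← h0]
    simp
  have h1 : k ≤ ‖A 1‖ := by simpa using hA 1
  have hP : 0 < ‖A 1‖ := h0.trans_le h1
  set P := A 1 with hPd
  set Q := A I with hQd
  set s : ℝ := (P.re * Q.re + P.im * Q.im) / ‖P‖ ^ 2 with hs'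
  have h2 : k ≤ ‖Q - s * P‖ := by
    have h3 := hA (I - s)
    have h4 : A (I - s) = Q - s * P := by
      rw [map_sub, ← hQd]
      congr 1
      rw [lin_apply A s]
      simp
      exact Or.inl hPd.symm
    rw [h4] at h3
    have h5 : 1 ≤ ‖I - (s : ℂ)‖ := by
      have h6 := Complex.abs_im_le_norm (I - (s : ℂ))
      simpa using h6
    nlinarith
  have h3 : ‖P‖ ^ 2 * ‖Q - s * P‖ ^ 2 = A.det ^ 2 := by
    rw [detC, ← hPd, ← hQd]
    have h4 : s * ‖P‖ ^ 2 = P.re * Q.re + P.im * Q.im := by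
      rw [hs', div_mul_cancel₀ _ (by positivity)]
    rw [sqn (Q - s * P)]
    simp only [Complex.sub_re, Complex.sub_im, Complex.re_ofReal_mul, Complex.im_ofReal_mul]
    have h5 : ‖P‖ ^ 2 = P.re ^ 2 + P.im ^ 2 := sqn P
    rw [h5] at h4 ⊢
    have h6 : (P.re ^ 2 + P.im ^ 2) * ((Q.re - s * P.re) ^ 2 + (Q.im - s * P.im) ^ 2) =
        (P.re ^ 2 + P.im ^ 2) * (Q.re ^ 2 + Q.im ^ 2) - 2 * (s * (P.re ^ 2 + P.im ^ 2)) *
          (P.re * Q.re + P.im * Q.im) + (s * (P.re ^ 2 + P.im ^ 2)) ^ 2 := by ring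
    rw [h6, h4]
    ring
  have h4 : (k ^ 2) ^ 2 ≤ |A.det| ^ 2 := by
    rw [sq_abs, ← h3]
    have h5 : k ^ 2 ≤ ‖P‖ ^ 2 := pow_le_pow_left₀ hk h1 2
    have h6 : k ^ 2 ≤ ‖Q - s * P‖ ^ 2 := pow_le_pow_left₀ hk h2 2
    calc (k ^ 2) ^ 2 = k ^ 2 * k ^ 2 := by ring
      _ ≤ ‖P‖ ^ 2 * ‖Q - s * P‖ ^ 2 := mul_le_mul h5 h6 (by positivity) (by positivity)
  exact (pow_le_pow_iff_left₀ (by positivity) (abs_nonneg _) two_ne_zero).1 h4

theorem t (hPH : S_PH) : S_EE := by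
  intro p Ω f φ β V τ₀ hp hΩ hC hV
  obtain ⟨hφ, hfi, -, -, -, -, -⟩ := hPH p Ω f φ β hp hΩ.isOpen hC
  obtain ⟨K', hK'⟩ := (hV.cp.fderiv (𝕜 := ℝ)).exists_bound_of_continuous
    (hV.sm.continuous_fderiv (by simp))
  set K : ℝ := max K' 1 with hK
  have hK1 : 1 ≤ K := le_max_right _ _
  have hKV : ∀ x, ‖fderiv ℝ V x‖ ≤ K := fun x => (hK' x).trans (le_max_left _ _)
  have hK0 : 0 < K := by linarith
  refine ⟨16 * K, min τ₀ (1 / (2 * K)), by positivity, lt_min hV.pos (by positivity),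
    min_le_left _ _, ?_⟩
  intro τ hτ0 hτ u v hu hv huv
  have hττ₀ : τ < τ₀ := hτ.trans_le (min_le_left _ _)
  set κ : ℝ := τ * K with hκ
  have hκ0 : 0 ≤ κ := by positivity
  have hκ1 : κ ≤ 1 / 2 := by
    have h1 : τ < 1 / (2 * K) := hτ.trans_le (min_le_right _ _)
    rw [lt_div_iff₀ (by positivity)] at h1
    rw [hκ]
    linarith
  -- the maps
  set Ψ : ℂ → ℂ := fun x => x + τ * V x with hΨ
  have hΨΩ : ∀ x ∈ Ω, Ψ x ∈ Ω := fun x hx => hV.shift τ hτ0 hττ₀ x (subset_closure hx)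
  set A : ℂ → ℂ →L[ℝ] ℂ := fun x => ContinuousLinearMap.id ℝ ℂ + τ • fderiv ℝ V x with hA
  have hΨd : ∀ x, HasFDerivAt Ψ (A x) x := by
    intro x
    have h1 : HasFDerivAt V (fderiv ℝ V x) x := (hV.sm.differentiable (by simp) x).hasFDerivAt
    have h2 := (hasFDerivAt_id (𝕜 := ℝ) x).add (h1.const_smul τ)
    refine h2.congr_of_eventuallyEq (Eventually.of_forall fun y => ?_)
    show y + (τ : ℂ) * V y = y + τ • V y
    rw [Complex.real_smul]
  have hAn : ∀ x, ‖A x‖ ≤ 1 + κ := by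
    intro x
    refine (norm_add_le _ _).trans (add_le_add ContinuousLinearMap.norm_id_le ?_)
    rw [norm_smul, Real.norm_of_nonneg hτ0.le]
    exact mul_le_mul_of_nonneg_left (hKV x) hτ0.le
  have hAl : ∀ x w, (1 - κ) * ‖w‖ ≤ ‖A x w‖ := by
    intro x w
    have h1 : A x w = w + τ • fderiv ℝ V x w := rfl
    have h2 : ‖τ • fderiv ℝ V x w‖ ≤ κ * ‖w‖ := by
      rw [norm_smul, Real.norm_of_nonneg hτ0.le, hκ, mul_assoc]
      exact mul_le_mul_of_nonneg_left (((fderiv ℝ V x).le_opNorm w).trans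
        (mul_le_mul_of_nonneg_right (hKV x) (norm_nonneg _))) hτ0.le
    rw [h1]
    have h3 := norm_sub_norm_le w (-(τ • fderiv ℝ V x w))
    rw [norm_neg, sub_neg_eq_add] at h3
    linarith
  have hΨi : InjOn Ψ Ω := by
    intro x _ y _ hxy
    have h1 : ‖V x - V y‖ ≤ K * ‖x - y‖ :=
      Convex.norm_image_sub_le_of_norm_fderiv_le (𝕜 := ℝ)
        (fun z _ => hV.sm.differentiable (by simp) z) (fun z _ => hKV z) convex_univ trivial trivial
    have h2 : x - y = -(τ * (V x - V y)) := by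
      have h3 : x + τ * V x = y + τ * V y := hxy
      linear_combination h3
    have h3 : ‖x - y‖ ≤ κ * ‖x - y‖ := by
      conv_lhs => rw [h2]
      rw [norm_neg, norm_mul, Complex.norm_real, Real.norm_of_nonneg hτ0.le, hκ, mul_assoc]
      exact mul_le_mul_of_nonneg_left h1 hτ0.le
    have h4 : ‖x - y‖ = 0 := by nlinarith [norm_nonneg (x - y)]
    exact sub_eq_zero.1 (norm_eq_zero.1 h4)
  -- the function `U = u ∘ φ`
  set U : ℂ → ℂ := fun x => u (φ x) with hU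
  have hUd : ∀ y ∈ Ω, HasFDerivAt U (fderiv ℝ U y) y := by
    intro y hy
    have h1 : HasFDerivAt φ _ y := (hφ y hy).2.2.hasFDerivAt.restrictScalars ℝ
    exact ((hu.differentiable (by simp) (φ y)).hasFDerivAt.comp y h1).differentiableAt.hasFDerivAt
  set e : ℂ → ℝ := fun y => hs (fderiv ℝ U y) with he
  have he0 : ∀ y, 0 ≤ e y := fun y => hs_nonneg _
  -- pointwise bound on `Ω`
  have hpt : ∀ x ∈ Ω, hs (fderiv ℝ v x) ≤ (1 + κ) ^ 2 * e (Ψ x) := by
    intro x hx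
    have h1 : HasFDerivAt (U ∘ Ψ) ((fderiv ℝ U (Ψ x)).comp (A x)) x :=
      (hUd (Ψ x) (hΨΩ x hx)).comp x (hΨd x)
    have h2 : v =ᶠ[𝓝 x] U ∘ Ψ := by
      filter_upwards [hΩ.isOpen.mem_nhds hx] with y hy
      exact huv y (subset_closure hy)
    have h3 : fderiv ℝ v x = (fderiv ℝ U (Ψ x)).comp (A x) := by
      rw [h2.fderiv_eq, h1.fderiv]
    rw [h3]
    refine (hs_comp _ _).trans (mul_le_mul_of_nonneg_right ?_ (he0 _))
    exact pow_le_pow_left₀ (norm_nonneg _) (hAn x) 2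
  -- the change of variables by `f`
  set c : ℂ → ℂ := fun z => hfun p β z ^ 2 with hc
  set Df : ℂ → ℂ →L[ℝ] ℂ := fun z =>
    (ContinuousLinearMap.toSpanSingleton ℂ (c z)).restrictScalars ℝ with hDf
  have hDfa : ∀ z w, Df z w = w * c z := fun z w => rfl
  have hfd : ∀ z ∈ ball (0 : ℂ) 1, HasFDerivAt f (Df z) z := fun z hz =>
    (hC.der z hz).hasFDerivAt.restrictScalars ℝ
  have hdet : ∀ z, |(Df z).det| = ‖c z‖ ^ 2 := by
    intro z
    rw [detC, hDfa, hDfa, sqn]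
    simp only [one_mul, Complex.I_mul_re, Complex.I_mul_im]
    rw [show (c z).re * (c z).re - (c z).im * -(c z).im = (c z).re ^ 2 + (c z).im ^ 2 by ring]
    exact abs_of_nonneg (by positivity)
  have heq : ∀ z ∈ ball (0 : ℂ) 1, |(Df z).det| • e (f z) = hs (fderiv ℝ u z) := by
    intro z hz
    have hfz : f z ∈ Ω := by
      rw [← hC.im]
      exact mem_image_of_mem f hz
    have h1 : HasFDerivAt (U ∘ f) ((fderiv ℝ U (f z)).comp (Df z)) z :=
      (hUd (f z) hfz).comp z (hfd z hz)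
    have h2 : u =ᶠ[𝓝 z] U ∘ f := by
      filter_upwards [isOpen_ball.mem_nhds hz] with y hy
      show u y = u (φ (f y))
      rw [hC.inv y hy]
    have h3 : fderiv ℝ u z = (fderiv ℝ U (f z)).comp (Df z) := by
      rw [h2.fderiv_eq, h1.fderiv]
    rw [h3, hs_conf _ _ (c z) (hDfa z), hdet, smul_eq_mul]
  have hcont : ∀ w : ℂ → ℂ, ContDiff ℝ ∞ w → Continuous fun z => hs (fderiv ℝ w z) := by
    intro w hw
    have h1 := hw.continuous_fderiv (n := ∞) (by simp)
    exact ((h1.clm_apply continuous_const).norm.pow 2).add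
      ((h1.clm_apply continuous_const).norm.pow 2)
  have hIu : IntegrableOn (fun z => hs (fderiv ℝ u z)) (ball (0 : ℂ) 1) :=
    ((hcont u hu).continuousOn.integrableOn_compact (isCompact_closedBall (0 : ℂ) 1)).mono_set
      ball_subset_closedBall
  have hIe : IntegrableOn e Ω := by
    rw [← hC.im, integrableOn_image_iff_integrableOn_abs_det_fderiv_smul volume
      measurableSet_ball (fun z hz => (hfd z hz).hasFDerivWithinAt) hfi]
    exact hIu.congr_fun (fun z hz => (heq z hz).symm) measurableSet_ball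
  have hEe : ∫ y in Ω, e y = energy (ball 0 1) u := by
    conv_lhs => rw [← hC.im]
    rw [integral_image_eq_integral_abs_det_fderiv_smul volume
      measurableSet_ball (fun z hz => (hfd z hz).hasFDerivWithinAt) hfi]
    exact setIntegral_congr_fun measurableSet_ball fun z hz => heq z hz
  -- the change of variables by `Ψ`
  have hsub : Ψ '' Ω ⊆ Ω := by
    rintro _ ⟨x, hx, rfl⟩
    exact hΨΩ x hx
  have hΩm : MeasurableSet Ω := hΩ.isOpen.measurableSet
  have hId : IntegrableOn (fun x => |(A x).det| • e (Ψ x)) Ω := by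
    rw [← integrableOn_image_iff_integrableOn_abs_det_fderiv_smul volume
      hΩm (fun z _ => (hΨd z).hasFDerivWithinAt) hΨi]
    exact hIe.mono_set hsub
  have hEd : ∫ y in Ψ '' Ω, e y = ∫ x in Ω, |(A x).det| • e (Ψ x) :=
    integral_image_eq_integral_abs_det_fderiv_smul volume
      hΩm (fun z _ => (hΨd z).hasFDerivWithinAt) hΨi e
  have h1κ : 0 < 1 - κ := by linarith
  set M : ℝ := (1 + κ) ^ 2 / (1 - κ) ^ 2 with hM
  have hM0 : 0 ≤ M := by positivity
  have hM1 : M ≤ 1 + 16 * K * τ := by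
    rw [hM, div_le_iff₀ (by positivity)]
    have h1 : 16 * K * τ = 16 * κ := by
      rw [hκ]
      ring
    rw [h1]
    nlinarith [mul_nonneg hκ0 (mul_nonneg (show 0 ≤ 1 - 2 * κ by linarith)
      (show 0 ≤ 3 - 2 * κ by linarith))]
  have hE0 : 0 ≤ energy (ball 0 1) u := by
    rw [← hEe]
    exact integral_nonneg fun y => he0 y
  calc energy Ω v = ∫ x in Ω, hs (fderiv ℝ v x) := rfl
    _ ≤ ∫ x in Ω, M * (|(A x).det| • e (Ψ x)) := by
        refine integral_mono_of_nonneg (Eventually.of_forall fun x => hs_nonneg _)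
          (hId.const_mul M) ?_
        refine (ae_restrict_iff' hΩm).2 (Eventually.of_forall fun x hx => ?_)
        refine (hpt x hx).trans ?_
        have h2 := det_lower (A x) (1 - κ) h1κ.le (hAl x)
        show (1 + κ) ^ 2 * e (Ψ x) ≤ M * (|(A x).det| * e (Ψ x))
        have h3 : (1 + κ) ^ 2 = M * (1 - κ) ^ 2 := by
          rw [hM, div_mul_cancel₀ _ (by positivity)]
        rw [h3, mul_assoc]
        exact mul_le_mul_of_nonneg_left (mul_le_mul_of_nonneg_right h2 (he0 _)) hM0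
    _ = M * ∫ y in Ψ '' Ω, e y := by
        rw [hEd, integral_const_mul]
    _ ≤ M * ∫ y in Ω, e y := by
        refine mul_le_mul_of_nonneg_left ?_ hM0
        exact setIntegral_mono_set hIe (Eventually.of_forall fun y => he0 y)
          (Eventually.of_forall hsub)
    _ = M * energy (ball 0 1) u := by rw [hEe]
    _ ≤ (1 + 16 * K * τ) * energy (ball 0 1) u := mul_le_mul_of_nonneg_right hM1 hE0

end Pool.Agent.Helper37.ST.EE
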